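import Pool.Agent.P8H64.GP.Stm3
import Pool.Agent.P8H73.GP.Tilt

/-!
# Package TILTB of the project GP (MP_130bb2_pr): different factors for the coordinates
-/

set_option autoImplicit false
set_option linter.all false

namespace Pool.Agent.P8H7.GP

open MeasureTheory ProbabilityTheory
open scoped ENNReal
open Pool.Agent.P8H64.GP (gr S_TILTB)
open Pool.Agent.P8H73.GP (rho measurable_rho tilt_line lintegral_prod_coord)

/-- The standard Gaussian law as the image of a measure with a density. -/
lemma gr_eqb (r : ℕ) (a : Fin r → ℝ) (ha : ∀ k, 0 < a k) :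
    gr r = ((gr r).withDensity (fun v => ∏ k, rho (a k) (v k))).map
      (fun (v : Fin r → ℝ) (k : Fin r) => a k * v k) := by
  have hm : Measurable (fun (v : Fin r → ℝ) (k : Fin r) => a k * v k) := by
    fun_prop
  refine Measure.pi_eq fun s hs => ?_
  rw [Measure.map_apply hm (MeasurableSet.univ_pi hs),
    withDensity_apply _ (hm (MeasurableSet.univ_pi hs)), ← lintegral_indicator (hm (MeasurableSet.univ_pi hs))]
  have hsm : ∀ k, MeasurableSet ((fun x : ℝ => a k * x) ⁻¹' s k) := fun k => measurable_const_mul (a k) (hs k)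
  have h1 : ∀ v : Fin r → ℝ, ((fun (v : Fin r → ℝ) (k : Fin r) => a k * v k) ⁻¹' Set.univ.pi s).indicator
      (fun v => ∏ k, rho (a k) (v k)) v = ∏ k, (((fun x : ℝ => a k * x) ⁻¹' s k).indicator (rho (a k))) (v k) := by
    intro v
    by_cases hv : v ∈ (fun (v : Fin r → ℝ) (k : Fin r) => a k * v k) ⁻¹' Set.univ.pi s
    · rw [Set.indicator_of_mem hv]
      refine Finset.prod_congr rfl fun k _ => ?_
      have hk : v k ∈ (fun x : ℝ => a k * x) ⁻¹' s k := (Set.mem_univ_pi.1 hv) k
      rw [Set.indicator_of_mem hk]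
    · rw [Set.indicator_of_notMem hv]
      have h2 : ∃ k, v k ∉ (fun x : ℝ => a k * x) ⁻¹' s k := by
        by_contra hcon
        push Not at hcon
        exact hv (Set.mem_univ_pi.2 hcon)
      obtain ⟨k, hk⟩ := h2
      symm
      exact Finset.prod_eq_zero (Finset.mem_univ k) (Set.indicator_of_notMem hk _)
  rw [lintegral_congr h1, lintegral_prod_coord r (fun k => ((fun x : ℝ => a k * x) ⁻¹' s k).indicator (rho (a k)))
    (fun k => (measurable_rho (a k)).indicator (hsm k))]
  refine Finset.prod_congr rfl fun k _ => ?_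
  rw [← lintegral_indicator_one (hs k), tilt_line (a k) (ha k) _ (measurable_one.indicator (hs k))]
  refine lintegral_congr fun x => ?_
  by_cases hx : a k * x ∈ s k
  · rw [Set.indicator_of_mem hx, Set.indicator_of_mem (show x ∈ (fun x : ℝ => a k * x) ⁻¹' s k from hx), Pi.one_apply,
      one_mul]
  · rw [Set.indicator_of_notMem hx, Set.indicator_of_notMem (show x ∉ (fun x : ℝ => a k * x) ⁻¹' s k from hx), zero_mul]

theorem tiltb : S_TILTB := by
  intro r F hF _ a ha
  have hm : Measurable (fun (v : Fin r → ℝ) (k : Fin r) => a k * v k) := by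
    fun_prop
  have hP : Measurable (fun v : Fin r → ℝ => ∏ k, rho (a k) (v k)) :=
    Finset.measurable_prod _ fun k _ => (measurable_rho (a k)).comp (measurable_pi_apply k)
  have hpos : 0 ≤ ∏ k, a k := Finset.prod_nonneg fun k _ => (ha k).le
  have hPeq : ∀ v : Fin r → ℝ, ∏ k, rho (a k) (v k) =
      ENNReal.ofReal ((∏ k, a k) * Real.exp (-∑ k, (a k ^ 2 - 1) / 2 * v k ^ 2)) := by
    intro v
    unfold rho
    rw [← ENNReal.ofReal_prod_of_nonneg (fun k _ => mul_nonneg (ha k).le (Real.exp_pos _).le)]
    congr 1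
    rw [Finset.prod_mul_distrib, ← Real.exp_sum, ← Finset.sum_neg_distrib]
    congr 2
    exact Finset.sum_congr rfl fun k _ => by ring
  conv_lhs => rw [gr_eqb r a ha]
  rw [integral_map hm.aemeasurable hF.aestronglyMeasurable,
    integral_withDensity_eq_integral_toReal_smul hP (Filter.Eventually.of_forall fun v => by
      rw [hPeq]; exact ENNReal.ofReal_lt_top), ← integral_const_mul]
  refine integral_congr_ae (Filter.Eventually.of_forall fun v => ?_)
  beta_reduce
  rw [hPeq, ENNReal.toReal_ofReal (mul_nonneg hpos (Real.exp_pos _).le), smul_eq_mul]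
  ring

end Pool.Agent.P8H7.GP
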